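import Pool.Agent.H31.FL6

open Pool.Agent.H31.FL

universe v

theorem Pool.Agent.Results.MP_a34ed5_an.Main.result :
    (∀ (p : Ultrafilter ℕ), p ∉ Set.range pure →
      ∀ (L : Type v) [AddCommGroup L] [Module ℝ L] [TopologicalSpace L] [IsTopologicalAddGroup L]
        [ContinuousSMul ℝ L] [LocallyConvexSpace ℝ L] [T2Space L]
        (δ : (insert p (Set.range pure) : Set (Ultrafilter ℕ)) → L), IsFreeLCS δ →
        (Nuclear L ↔ PPoint p ∧ Rapid p) ∧ (MultiHilbert L ↔ PPoint p ∧ Rapid p)) ∧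
    (∃ p : Ultrafilter ℕ, p ∉ Set.range pure ∧ ¬ (PPoint p ∧ Rapid p)) ∧
    (Cardinal.continuum.{0} = Cardinal.aleph 1 →
      ∃ p : Ultrafilter ℕ, p ∉ Set.range pure ∧ PPoint p ∧ Rapid p) :=
  ⟨fun _ hp _ _ _ _ _ _ _ _ _ hδ => main_p hp hδ, exists_bad, exists_good⟩
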